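import Mathlib
import Pool.Agent.TH739.PA.Act

/-!
# Counting integers at which a real polynomial is close to a given number
-/

set_option autoImplicit false

open Filter Topology Polynomial

noncomputable section

namespace Pool.Agent.Helper77.KS

theorem poly_large {P : ℝ[X]} (hP : P ≠ 0) : ∃ c₀ : ℝ, 0 < c₀ ∧ ∃ N₀ : ℕ, ∀ x : ℝ, N₀ ≤ x →
    c₀ ≤ |P.eval x| := by
  by_cases hd : 0 < P.degree
  · have h := (P.abs_tendsto_atTop hd).eventually_ge_atTop 1
    obtain ⟨A, hA⟩ := eventually_atTop.1 h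
    refine ⟨1, one_pos, ⌈A⌉₊, fun x hx => hA x ?_⟩
    exact (Nat.le_ceil A).trans hx
  · have h : P = C (P.coeff 0) := eq_C_of_degree_le_zero (not_lt.1 hd)
    have h0 : P.coeff 0 ≠ 0 := by
      intro h1
      rw [h1, map_zero] at h
      exact hP h
    refine ⟨|P.coeff 0|, abs_pos.2 h0, 0, fun x _ => ?_⟩
    rw [h]
    simp

theorem half {Q : ℝ[X]} (hQ : 0 < Q.natDegree) (R : ℝ) : ∃ K : ℕ, ∀ c : ℝ, ∀ Z : Finset ℤ,
    (∀ n ∈ Z, 0 ≤ n ∧ |Q.eval (n : ℝ) - c| < R) → Z.card ≤ K := by
  have hd : Q.derivative ≠ 0 := by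
    intro h
    have := natDegree_eq_zero_of_derivative_eq_zero h
    omega
  obtain ⟨c₀, hc₀, N₀, hN₀⟩ := poly_large hd
  refine ⟨N₀ + (⌈2 * R / c₀⌉₊ + 1), fun c Z hZ => ?_⟩
  classical
  rw [← Finset.card_filter_add_card_filter_not (s := Z) (fun n : ℤ => n < N₀)]
  refine Nat.add_le_add ?_ ?_
  · have h1 : (Z.filter fun n : ℤ => n < N₀) ⊆ Finset.Ico (0 : ℤ) N₀ := by
      intro n hn
      rw [Finset.mem_filter] at hn
      exact Finset.mem_Ico.2 ⟨(hZ n hn.1).1, hn.2⟩
    refine (Finset.card_le_card h1).trans ?_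
    rw [Int.card_Ico]
    omega
  · set T := Z.filter fun n : ℤ => ¬ n < N₀ with hT
    rcases T.eq_empty_or_nonempty with h | h
    · rw [h, Finset.card_empty]
      exact Nat.zero_le _
    · set t₀ := T.min' h with ht₀
      have hmem : t₀ ∈ T := T.min'_mem h
      have hsub : T ⊆ Finset.Icc t₀ (t₀ + ⌈2 * R / c₀⌉₊) := by
        intro t ht
        rw [Finset.mem_Icc]
        have hle : t₀ ≤ t := T.min'_le t ht
        refine ⟨hle, ?_⟩
        rcases hle.eq_or_lt with e | hlt
        · rw [← e]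
          omega
        have h1 := (hZ t (Finset.mem_filter.1 ht).1).2
        have h2 := (hZ t₀ (Finset.mem_filter.1 hmem).1).2
        have h3 : (N₀ : ℝ) ≤ t₀ := by
          have := not_lt.1 (Finset.mem_filter.1 hmem).2
          exact_mod_cast this
        have hlt' : (t₀ : ℝ) < t := by exact_mod_cast hlt
        obtain ⟨ξ, hξ, hξ'⟩ := exists_hasDerivAt_eq_slope (fun x => Q.eval x)
          (fun x => Q.derivative.eval x) hlt' Q.continuous.continuousOn
          (fun x _ => Q.hasDerivAt x)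
        have h4 := hN₀ ξ (h3.trans hξ.1.le)
        rw [hξ', abs_div, le_div_iff₀ (abs_pos.2 (by linarith)),
          abs_of_pos (show (0 : ℝ) < t - t₀ by linarith)] at h4
        have h5 : |Q.eval (t : ℝ) - Q.eval (t₀ : ℝ)| < 2 * R := by
          have e : Q.eval (t : ℝ) - Q.eval (t₀ : ℝ) = (Q.eval (t : ℝ) - c) -
            (Q.eval (t₀ : ℝ) - c) := by ring
          rw [e]
          refine (abs_sub _ _).trans_lt ?_
          linarith
        have h6 : (t : ℝ) - t₀ < 2 * R / c₀ := by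
          rw [lt_div_iff₀ hc₀, mul_comm]
          exact h4.trans_lt h5
        have h7 : (t : ℝ) < t₀ + (⌈2 * R / c₀⌉₊ : ℝ) := by
          have := Nat.le_ceil (2 * R / c₀)
          linarith
        have h8 : t < t₀ + (⌈2 * R / c₀⌉₊ : ℤ) := by exact_mod_cast h7
        exact h8.le
      refine (Finset.card_le_card hsub).trans ?_
      rw [Int.card_Icc]
      omega

/-- A real polynomial of positive degree is close to a given number at a bounded number of
integers. -/
theorem count {Q : ℝ[X]} (hQ : 0 < Q.natDegree) (R : ℝ) : ∃ K : ℕ, ∀ c : ℝ, ∀ Z : Finset ℤ,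
    (∀ n ∈ Z, |Q.eval (n : ℝ) - c| < R) → Z.card ≤ K := by
  classical
  obtain ⟨K₁, h₁⟩ := half hQ R
  have hd : 0 < (Q.comp (-X)).natDegree := by
    rw [natDegree_comp]
    simpa using hQ
  obtain ⟨K₂, h₂⟩ := half hd R
  refine ⟨K₁ + K₂, fun c Z hZ => ?_⟩
  rw [← Finset.card_filter_add_card_filter_not (s := Z) (fun n : ℤ => 0 ≤ n)]
  refine Nat.add_le_add (h₁ c _ fun n hn => ?_) ?_
  · rw [Finset.mem_filter] at hn
    exact ⟨hn.2, hZ n hn.1⟩
  · have h3 := h₂ c ((Z.filter fun n : ℤ => ¬ 0 ≤ n).image Neg.neg) (fun n hn => by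
      obtain ⟨m, hm, rfl⟩ := Finset.mem_image.1 hn
      rw [Finset.mem_filter] at hm
      refine ⟨by omega, ?_⟩
      have := hZ m hm.1
      simpa using this)
    rwa [Finset.card_image_of_injective _ neg_injective] at h3

theorem finite_close {Q : ℝ[X]} (hQ : 0 < Q.natDegree) (R c : ℝ) :
    {n : ℤ | |Q.eval (n : ℝ) - c| < R}.Finite := by
  obtain ⟨K, hK⟩ := count hQ R
  by_contra h
  obtain ⟨Z, hZ, hc⟩ := (Set.not_finite.1 h).exists_subset_card_eq (K + 1)
  have := hK c Z fun n hn => hZ hn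
  omega

open Classical in
/-- The pairs of integers at which the values are close are sparse. -/
theorem summable_close {Q : ℝ[X]} (hQ : 0 < Q.natDegree) (R : ℝ) :
    Summable fun p : ℤ × ℤ => (if |Q.eval (p.1 : ℝ) - Q.eval (p.2 : ℝ)| < R then (1 : ℝ) else 0) /
      (1 + max |(p.1 : ℝ)| |(p.2 : ℝ)|) ^ 2 := by
  obtain ⟨K, hK⟩ := count hQ R
  set f : ℤ × ℤ → ℝ := fun p => (if |Q.eval (p.1 : ℝ) - Q.eval (p.2 : ℝ)| < R then (1 : ℝ) else 0) /
      (1 + max |(p.1 : ℝ)| |(p.2 : ℝ)|) ^ 2 with hf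
  have hf0 : 0 ≤ f := fun p => by
    rw [hf]
    exact div_nonneg (by split_ifs <;> norm_num) (by positivity)
  have hbase : Summable fun x : ℤ => (K : ℝ) * (1 / (1 + |(x : ℝ)|) ^ 2) := by
    refine Summable.mul_left _ ?_
    have h1 : Summable fun x : ℤ => (1 : ℝ) / (x : ℝ) ^ 2 := by
      have := (Real.summable_one_div_int_pow (p := 2)).2 (by norm_num)
      exact this
    refine Summable.of_norm_bounded_eventually (g := fun x : ℤ => (1 : ℝ) / (x : ℝ) ^ 2) h1 ?_
    have h2 : {(0 : ℤ)}ᶜ ∈ (cofinite : Filter ℤ) := (Set.finite_singleton 0).compl_mem_cofinite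
    filter_upwards [h2] with x hx
    have hx0 : (x : ℝ) ≠ 0 := by
      have : x ≠ 0 := by simpa using hx
      exact_mod_cast this
    rw [Real.norm_of_nonneg (by positivity), ← sq_abs (x : ℝ)]
    have : 0 < |(x : ℝ)| := abs_pos.2 hx0
    exact one_div_le_one_div_of_le (by positivity) (by nlinarith)
  have hfin : ∀ x : ℤ, (Function.support fun y => f (x, y)).Finite := by
    intro x
    refine (finite_close hQ R (Q.eval (x : ℝ))).subset fun y hy => ?_
    rw [Function.mem_support] at hy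
    by_contra hcon
    apply hy
    have hcon' : ¬ |Q.eval (x : ℝ) - Q.eval (y : ℝ)| < R := by
      rw [abs_sub_comm]
      exact hcon
    rw [hf]
    simp only
    rw [if_neg hcon', zero_div]
  rw [summable_prod_of_nonneg hf0]
  refine ⟨fun x => summable_of_finite_support (hfin x), ?_⟩
  refine Summable.of_nonneg_of_le (fun x => tsum_nonneg fun y => hf0 (x, y)) (fun x => ?_) hbase
  rw [tsum_eq_sum (s := (hfin x).toFinset) (fun y hy => by
    by_contra h
    exact hy ((hfin x).mem_toFinset.2 h))]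
  have hle : ∀ y ∈ (hfin x).toFinset, f (x, y) ≤ 1 / (1 + |(x : ℝ)|) ^ 2 := by
    intro y _
    rw [hf]
    simp only
    have h1 : (1 + |(x : ℝ)|) ^ 2 ≤ (1 + max |(x : ℝ)| |(y : ℝ)|) ^ 2 := by
      have := le_max_left |(x : ℝ)| |(y : ℝ)|
      exact pow_le_pow_left₀ (by positivity) (by linarith) 2
    refine div_le_div₀ zero_le_one ?_ (by positivity) h1
    split_ifs <;> norm_num
  refine (Finset.sum_le_card_nsmul _ _ _ hle).trans ?_
  rw [nsmul_eq_mul]
  refine mul_le_mul_of_nonneg_right ?_ (by positivity)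
  have hcard := hK (Q.eval (x : ℝ)) (hfin x).toFinset (fun y hy => by
    have h2 := (hfin x).mem_toFinset.1 hy
    rw [Function.mem_support] at h2
    by_contra hcon
    apply h2
    have hcon' : ¬ |Q.eval (x : ℝ) - Q.eval (y : ℝ)| < R := by
      rw [abs_sub_comm]
      exact hcon
    rw [hf]
    simp only
    rw [if_neg hcon', zero_div])
  exact_mod_cast hcard

/-- indicator averages of finite sets tend to zero -/
theorem avr_finite {p : ℤ → Prop} [DecidablePred p] (h : {n : ℤ | p n}.Finite) :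
    Tendsto (fun N : ℕ => Pool.Agent.TH739.PA.avr (Finset.Icc (-(N : ℤ)) N) fun n =>
      (if p n then (1 : ℝ) else 0)) atTop (𝓝 0) := by
  have h1 : Tendsto (fun N : ℕ => (h.toFinset.card : ℝ) / N) atTop (𝓝 0) :=
    tendsto_const_div_atTop_nhds_zero_nat _
  refine squeeze_zero' (Eventually.of_forall fun N => Pool.Agent.TH739.PA.avr_nonneg fun n => by
    split_ifs <;> norm_num) ?_ h1
  filter_upwards [eventually_gt_atTop 0] with N hN
  rw [Pool.Agent.TH739.PA.avr, Pool.Agent.TH739.PA.Icc_card, ← Finset.sum_filter, Finset.sum_const,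
    nsmul_eq_mul, mul_one, div_eq_inv_mul]
  have hN' : (0 : ℝ) < N := by exact_mod_cast hN
  refine mul_le_mul ?_ ?_ (by positivity) (by positivity)
  · push_cast
    exact inv_anti₀ hN' (by linarith)
  · have : ((Finset.Icc (-(N : ℤ)) N).filter p) ⊆ h.toFinset := by
      intro n hn
      rw [Set.Finite.mem_toFinset]
      exact (Finset.mem_filter.1 hn).2
    exact_mod_cast Finset.card_le_card this

end Pool.Agent.Helper77.KS
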