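import Pool.Agent.Helper77.KS.Real
import Pool.Agent.TH784.KE.One

/-!
# Products along arbitrary sequences over a Kolmogorov extension: complex functions
-/

set_option autoImplicit false
set_option linter.unusedSectionVars false

open MeasureTheory Filter Topology
open scoped ENNReal

noncomputable section

namespace Pool.Agent.Helper77.KS

open Pool.Agent.TH784.KE (cm Flow Filt Base CE KExt Van van_CE exists_CE dense_future small_past'
  exists_upper exists_lower cm_mono cm_le base_le)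
open Pool.Agent.TH739.PA (av avr Good LP av_add av_mul av_sub av_norm av_ofReal avr_mul
  avr_mono avr_const_le int_lim closed_slot Cls_zero)
open Pool.Agent.W761.Gauss (BM)

variable {X : Type} {m mA mY mX : MeasurableSpace X} {μ : Measure X} [IsProbabilityMeasure μ]
variable {G : Type} [Group G]
variable {Φ : G →* Equiv.Perm X} {ℓ : G → ℝ}
variable {J : Type} [DecidableEq J] [Fintype J] {I ι : Type} {𝔣 : Filter I} {Bx : I → Finset ι}

/-- The averages of the products tend to zero almost everywhere. -/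
def P0 (𝔣 : Filter I) (Bx : I → Finset ι) (μ : Measure X) (Φ : G →* Equiv.Perm X)
    (g : J → ι → G) (F : J → X → ℂ) : Prop :=
  ∀ᵐ x ∂μ, Tendsto (fun N => av (Bx N) fun n => ∏ j, F j (Φ (g j n) x)) 𝔣 (𝓝 0)

theorem prod_upd (g : J → ι → G) (F : J → X → ℂ) (j : J) (f : X → ℂ) (n : ι) (x : X) :
    ∏ l, (Function.update F j f) l (Φ (g l n) x) =
      f (Φ (g j n) x) * ∏ l ∈ Finset.univ.erase j, F l (Φ (g l n) x) := by
  rw [← Finset.mul_prod_erase _ _ (Finset.mem_univ j), Function.update_self]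
  congr 1
  apply Finset.prod_congr rfl
  intro l hl
  rw [Function.update_of_ne (Finset.ne_of_mem_erase hl)]

theorem P0_add {g : J → ι → G} {F : J → X → ℂ} {j : J} {f f' : X → ℂ}
    (hf : P0 𝔣 Bx μ Φ g (Function.update F j f)) (hg : P0 𝔣 Bx μ Φ g (Function.update F j f')) :
    P0 𝔣 Bx μ Φ g (Function.update F j (f + f')) := by
  filter_upwards [hf, hg] with x hx hx'
  have h := hx.add hx'
  rw [add_zero] at h
  refine h.congr fun N => ?_
  rw [← av_add]
  congr 1
  funext n
  rw [prod_upd, prod_upd, prod_upd, Pi.add_apply, add_mul]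

theorem P0_smul {g : J → ι → G} {F : J → X → ℂ} {j : J} {f : X → ℂ} (c : ℂ)
    (hf : P0 𝔣 Bx μ Φ g (Function.update F j f)) :
    P0 𝔣 Bx μ Φ g (Function.update F j (c • f)) := by
  filter_upwards [hf] with x hx
  have h := hx.const_mul c
  rw [mul_zero] at h
  refine h.congr fun N => ?_
  rw [← av_mul]
  congr 1
  funext n
  rw [prod_upd, prod_upd, Pi.smul_apply, smul_eq_mul, mul_assoc]

theorem prod_bound {g : J → ι → G} {F : J → X → ℂ} {C : J → ℝ} (hC : ∀ l x, ‖F l x‖ ≤ C l)
    (j : J) (n : ι) (x : X) : ‖∏ l ∈ Finset.univ.erase j, F l (Φ (g l n) x)‖ ≤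
      ∏ l ∈ Finset.univ.erase j, (|C l| + 1) := by
  rw [norm_prod]
  apply Finset.prod_le_prod (fun l _ => norm_nonneg _)
  intro l _
  exact ((hC l _).trans (le_abs_self _)).trans (by linarith)

/-- closure under uniform limits -/
theorem P0_unif [Countable ι] (hFl : Flow μ Φ) {g : J → ι → G}
    {F : J → X → ℂ} (hF : ∀ l, BM (F l)) {j : J} {f : X → ℂ}
    (h : ∀ ε : ℝ, 0 < ε → ∃ f' : X → ℂ, (∀ᵐ x ∂μ, ‖f x - f' x‖ ≤ ε) ∧
      P0 𝔣 Bx μ Φ g (Function.update F j f')) :
    P0 𝔣 Bx μ Φ g (Function.update F j f) := by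
  choose hFm CF hCF using hF
  choose f' hf' hP using fun i : ℕ => h (1 / ((i : ℝ) + 1)) (by positivity)
  have h1 : ∀ᵐ x ∂μ, ∀ (i : ℕ) (n : ι), ‖f (Φ (g j n) x) - f' i (Φ (g j n) x)‖ ≤
      1 / ((i : ℝ) + 1) := by
    rw [ae_all_iff]
    intro i
    rw [ae_all_iff]
    intro n
    exact (hFl _).quasiMeasurePreserving.ae (hf' i)
  filter_upwards [h1, ae_all_iff.2 hP] with x hx1 hx2
  refine (Cls_zero 𝔣).closed _ fun ε hε => ?_
  set D : ℝ := ∏ l ∈ Finset.univ.erase j, (|CF l| + 1) with hD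
  have hD0 : 0 < D := Finset.prod_pos fun l _ => by positivity
  obtain ⟨i, hi⟩ := exists_nat_one_div_lt (show (0 : ℝ) < ε / D by positivity)
  refine ⟨_, hx2 i, Eventually.of_forall fun N => ?_⟩
  rw [← av_sub]
  refine (av_norm _ _).trans ?_
  refine (avr_mono (b := fun _ => ε) fun n _ => ?_).trans (avr_const_le hε.le)
  rw [prod_upd, prod_upd, ← sub_mul, norm_mul]
  calc _ ≤ ε / D * D := mul_le_mul ((hx1 i n).trans hi.le) (prod_bound hCF j n x)
        (norm_nonneg _) (by positivity)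
    _ = ε := by field_simp

/-- closure under limits in mean for good sequences -/
theorem P0_mean [𝔣.NeBot] [𝔣.IsCountablyGenerated] (hFl : Flow μ Φ) {g : J → ι → G}
    {F : J → X → ℂ} (hF : ∀ l, BM (F l)) {j : J} (hgood : Good 𝔣 Bx μ fun n => (Φ (g j n) : X → X))
    {f : X → ℂ} (hf : BM f)
    (h : ∀ ε : ℝ, 0 < ε → ∃ f' : X → ℂ, BM f' ∧ ∫ x, ‖f x - f' x‖ ∂μ ≤ ε ∧
      P0 𝔣 Bx μ Φ g (Function.update F j f')) :
    P0 𝔣 Bx μ Φ g (Function.update F j f) := by
  choose hFm CF hCF using hF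
  set D : ℝ := ∏ l ∈ Finset.univ.erase j, (|CF l| + 1) with hD
  have hD0 : 0 < D := Finset.prod_pos fun l _ => by positivity
  let Λ : (X → ℂ) → I → X → ℂ := fun f N x => av (Bx N) fun n =>
    f (Φ (g j n) x) * ∏ l ∈ Finset.univ.erase j, F l (Φ (g l n) x)
  have hΛ : ∀ (f : X → ℂ) (x : X), (fun N => av (Bx N) fun n =>
      ∏ l, (Function.update F j f) l (Φ (g l n) x)) = fun N => Λ f N x := by
    intro f x
    funext N
    show _ = av _ _
    congr 1
    funext n
    rw [prod_upd]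
  have hmain := closed_slot (μ := μ) (Cls_zero 𝔣) (B := Bx) (g := fun n => (Φ (g j n) : X → X))
    (fun n => hFl _) hgood (Λ := Λ) hD0.le (h := f) (fun ε hε => by
      obtain ⟨f', h1, h2, h3⟩ := h ε hε
      refine ⟨f', h1, h2, ?_⟩
      filter_upwards [h3] with x hx
      rw [hΛ] at hx
      exact hx) (fun f' hf' => by
      obtain ⟨hfm, C, hC⟩ := id hf
      obtain ⟨hfm', C', hC'⟩ := id hf'
      refine ⟨fun x => ‖f x - f' x‖, (hfm.sub hfm').norm, ⟨C + C', fun x => ?_⟩,
        fun x => norm_nonneg _, ?_, fun N x => ?_⟩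
      · rw [abs_of_nonneg (norm_nonneg _)]
        exact (norm_sub_le _ _).trans (add_le_add (hC x) (hC' x))
      · have : 0 ≤ ∫ x, ‖f x - f' x‖ ∂μ := integral_nonneg fun x => norm_nonneg _
        linarith
      · show ‖av _ _ - av _ _‖ ≤ _
        rw [← av_sub, ← avr_mul]
        refine (av_norm _ _).trans (avr_mono fun n _ => ?_)
        rw [← sub_mul, norm_mul, mul_comm]
        exact mul_le_mul_of_nonneg_right (prod_bound hCF j n x) (norm_nonneg _))
  filter_upwards [hmain] with x hx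
  rw [hΛ]
  exact hx

/-- condition on a real function -/
def Adm (𝔣 : Filter I) (Bx : I → Finset ι) (μ : Measure X) (mA mY : MeasurableSpace X)
    (Φ : G →* Equiv.Perm X) (ℓ : G → ℝ) (g : J → ι → G) (S : Finset J)
    (v : J) (f : X → ℝ) : Prop :=
  (∀ x, |f x| ≤ 1) ∧ (v ∈ S → (∃ r : G, Measurable[cm mA Φ r] f) ∧
    Sm 𝔣 Bx μ mA Φ ℓ (g v) f) ∧ (v ∉ S → Measurable[mY] f)

theorem zero_real' [𝔣.NeBot] [𝔣.IsCountablyGenerated] (hK : KExt μ mA mY Φ ℓ) {s₀ : G}
    (hs₀ : 0 < ℓ s₀) {S : Finset J} (hS : S.Nonempty) {g : J → ι → G} (hsep : Sep 𝔣 Bx ℓ g S)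
    {f : J → X → ℝ} (hf : ∀ v, Adm 𝔣 Bx μ mA mY Φ ℓ g S v (f v)) :
    ∀ᵐ x ∂μ, Tendsto (fun N => avr (Bx N) fun n => ∏ v, f v (Φ (g v n) x)) 𝔣 (𝓝 0) := by
  classical
  have hr' : ∀ v : J, ∃ r : G, v ∈ S → Measurable[cm mA Φ r] (f v) := by
    intro v
    by_cases hv : v ∈ S
    · obtain ⟨⟨r, hr⟩, _⟩ := (hf v).2.1 hv
      exact ⟨r, fun _ => hr⟩
    · exact ⟨1, fun h => absurd h hv⟩
  choose r₀ hr₀ using hr'
  obtain ⟨r, hr⟩ := exists_upper hK.filt hs₀ r₀
  have hFm : ∀ v ∈ S, Measurable[cm mA Φ r] (f v) := fun v hv =>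
    (hr₀ v hv).mono (cm_mono hK.filt (hr v)) le_rfl
  have hFmX : ∀ v ∈ S, Measurable (f v) := fun v hv =>
    (hFm v hv).mono (cm_le hK.fl hK.filt r) le_rfl
  refine real_zero hK.fl hK.filt hK.base hS hsep hFm (fun v => (hf v).1)
    (fun v hv => (hf v).2.2 hv) fun ε hε => ?_
  have hs' : ∀ v : J, ∃ s₁ : G, v ∈ S → ∀ s : G, ℓ s ≤ ℓ s₁ → ∀ H : X → ℝ, Measurable H →
      (∀ x, |H x| ≤ 1) → H =ᵐ[μ] μ[f v | cm mA Φ s] → ∃ E : X → ℝ, 0 ≤ᵐ[μ] E ∧
      Integrable E μ ∧ ∫ x, E x ∂μ ≤ ε ∧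
      ∀ᵐ x ∂μ, Tendsto (fun N => avr (Bx N) fun n => |H (Φ (g v n) x)|) 𝔣 (𝓝 (E x)) := by
    intro v
    by_cases hv : v ∈ S
    · obtain ⟨s₁, hs₁⟩ := ((hf v).2.1 hv).2 ε hε
      exact ⟨s₁, fun _ => hs₁⟩
    · exact ⟨1, fun h => absurd h hv⟩
  choose s₁ hs₁ using hs'
  obtain ⟨s₂, hs₂⟩ := exists_lower hK.filt hs₀ s₁
  obtain ⟨s, hs⟩ := exists_lower (J := Bool) hK.filt hs₀ (fun b => if b then s₂ else r)
  have hss₂ : ℓ s ≤ ℓ s₂ := hs true
  have hsr : ℓ s ≤ ℓ r := hs false
  have hG' : ∀ v : J, ∃ g : X → ℝ, v ∈ S → (CE μ (cm mA Φ s) (f v) g ∧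
      g =ᵐ[μ] μ[f v | cm mA Φ s]) := by
    intro v
    by_cases hv : v ∈ S
    · obtain ⟨g, hg⟩ := exists_CE (cm_le hK.fl hK.filt s) (hFmX v hv) (hf v).1 (μ := μ)
      exact ⟨g, fun _ => hg⟩
    · exact ⟨0, fun h => absurd h hv⟩
  choose H hH using hG'
  have hE' : ∀ v : J, ∃ E : X → ℝ, v ∈ S → (0 ≤ᵐ[μ] E ∧ Integrable E μ ∧ ∫ x, E x ∂μ ≤ ε ∧
      ∀ᵐ x ∂μ, Tendsto (fun N => avr (Bx N) fun n => |H v (Φ (g v n) x)|) 𝔣 (𝓝 (E x))) := by
    intro v
    by_cases hv : v ∈ S
    · obtain ⟨E, hE⟩ := hs₁ v hv s (hss₂.trans (hs₂ v)) (H v)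
        ((hH v hv).1.1.mono (cm_le hK.fl hK.filt s) le_rfl) (hH v hv).1.2.1 (hH v hv).2
      exact ⟨E, fun _ => hE⟩
    · exact ⟨0, fun h => absurd h hv⟩
  choose E hE using hE'
  exact ⟨s, hsr, H, E, fun v hv => (hH v hv).1, hE⟩

/-- good sequences have small expectations on the remote past -/
theorem Sm_good [𝔣.NeBot] [𝔣.IsCountablyGenerated] (hK : KExt μ mA mY Φ ℓ) {s₀ : G}
    (hs₀ : 0 < ℓ s₀) {t : ι → G} (hgood : Good 𝔣 Bx μ fun n => (Φ (t n) : X → X))
    {f : X → ℝ} (hf : Measurable f) (hb : ∀ x, |f x| ≤ 1) (hV : Van μ mY f) :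
    Sm 𝔣 Bx μ mA Φ ℓ t f := by
  intro ε hε
  obtain ⟨s₁, hs₁⟩ := small_past' hK.fl hK.filt hs₀ hK.tail hf hb hV hε
  refine ⟨s₁, fun s hs H hH hHb hHe => ?_⟩
  have h4 := hgood (fun x => |H x|) hH.abs ⟨1, fun x => by rw [abs_abs]; exact hHb x⟩
  refine ⟨fun x => limUnder 𝔣 (fun N => avr (Bx N) fun n => |H (Φ (t n) x)|), ?_⟩
  have hE : ∀ᵐ x ∂μ, Tendsto (fun N => avr (Bx N) fun n => |H (Φ (t n) x)|) 𝔣
      (𝓝 (limUnder 𝔣 (fun N => avr (Bx N) fun n => |H (Φ (t n) x)|))) := by
    filter_upwards [h4] with x hx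
    exact tendsto_nhds_limUnder hx
  obtain ⟨h5, h6, h7⟩ := int_lim (fun n => hK.fl (t n)) hH.abs (zero_le_one (α := ℝ))
    (fun x => by rw [abs_abs]; exact hHb x) (fun x => abs_nonneg _) hE
  refine ⟨h5, h6, h7.trans ?_, hE⟩
  have e : ∫ x, |H x| ∂μ = ∫ x, |(μ[f | cm mA Φ s]) x| ∂μ := by
    apply integral_congr_ae
    filter_upwards [hHe] with x hx
    rw [hx]
  rw [e]
  exact hs₁ s hs

/-- functions which are orthogonal to the remote past -/
theorem Sm_fin [Countable ι] (hK : KExt μ mA mY Φ ℓ) {t : ι → G}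
    {f : X → ℝ} (hf : Measurable f) (hb : ∀ x, |f x| ≤ 1) {b : G} (hV : Van μ (cm mA Φ b) f) :
    Sm 𝔣 Bx μ mA Φ ℓ t f := by
  intro ε hε
  refine ⟨b, fun s hs H hH hHb hHe => ⟨0, Eventually.of_forall fun _ => le_rfl,
    integrable_zero _ _ _, ?_, ?_⟩⟩
  · simpa using hε.le
  · have hfi : Integrable f μ := Integrable.of_bound hf.aestronglyMeasurable 1
      (Eventually.of_forall hb)
    have h1 : (0 : X → ℝ) =ᵐ[μ] μ[f | cm mA Φ s] := by
      refine ae_eq_condExp_of_forall_setIntegral_eq (cm_le hK.fl hK.filt s) hfi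
        (fun B _ _ => integrableOn_zero) (fun B hB _ => ?_)
        stronglyMeasurable_zero.aestronglyMeasurable
      rw [hV B (cm_mono hK.filt hs B hB)]
      simp
    have h2 : ∀ᵐ x ∂μ, ∀ n, H (Φ (t n) x) = 0 := by
      rw [ae_all_iff]
      intro n
      have h3 : ∀ᵐ x ∂μ, H x = 0 := by
        filter_upwards [hHe, h1] with x hx1 hx2
        rw [hx1, ← hx2]
        rfl
      exact (hK.fl (t n)).quasiMeasurePreserving.ae h3
    filter_upwards [h2] with x hx
    refine tendsto_const_nhds.congr fun N => ?_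
    simp only [hx, abs_zero]
    unfold Pool.Agent.TH739.PA.avr
    simp

/-- the two admissible kinds of functions -/
def Slot (𝔣 : Filter I) (Bx : I → Finset ι) (μ : Measure X) (mA mY : MeasurableSpace X)
    (Φ : G →* Equiv.Perm X) (t : ι → G) (F : X → ℂ) : Prop :=
  (@Good I ι X mX 𝔣 Bx μ (fun n => (Φ (t n) : X → X)) ∧
    ∀ B : Set X, MeasurableSet[mY] B → ∫ x in B, F x ∂μ = 0) ∨
  ∀ ε : ℝ, 0 < ε → ∃ h : X → ℂ, (∀ᵐ x ∂μ, ‖F x - h x‖ ≤ ε) ∧
    (∃ a : G, Measurable[cm mA Φ a] h) ∧ (∃ C : ℝ, ∀ x, ‖h x‖ ≤ C) ∧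
    ∃ b : G, ∀ B : Set X, MeasurableSet[cm mA Φ b] B → ∫ x in B, h x ∂μ = 0

/-- condition on a complex function -/
def AdmC (𝔣 : Filter I) (Bx : I → Finset ι) (μ : Measure X) (mA mY : MeasurableSpace X)
    (Φ : G →* Equiv.Perm X) (g : J → ι → G) (S : Finset J) (v : J) (F : X → ℂ) : Prop :=
  @BM X mX F ∧ (v ∈ S → Slot 𝔣 Bx μ mA mY Φ (g v) F) ∧ (v ∉ S → Measurable[mY] F)

theorem Adm.bm (hK : KExt μ mA mY Φ ℓ) {g : J → ι → G} {S : Finset J} {v : J} {f : X → ℝ}
    (hf : Adm 𝔣 Bx μ mA mY Φ ℓ g S v f) : BM fun x => (f x : ℂ) := by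
  have hm : Measurable f := by
    by_cases hv : v ∈ S
    · obtain ⟨⟨r, hr⟩, _⟩ := hf.2.1 hv
      exact hr.mono (cm_le hK.fl hK.filt r) le_rfl
    · exact (hf.2.2 hv).mono (hK.base.le.trans hK.filt.le) le_rfl
  exact ⟨Complex.measurable_ofReal.comp hm, 1, fun x => by
    rw [Complex.norm_real]
    exact hf.1 x⟩

theorem van_re (hm : m ≤ mX) {F : X → ℂ} (hFm : Measurable[mX] F) {C : ℝ}
    (hC : ∀ x, ‖F x‖ ≤ C) (h : ∀ B : Set X, MeasurableSet[m] B → ∫ x in B, F x ∂μ = 0) :
    Van μ m (fun x => (F x).re / (|C| + 1)) ∧ Van μ m (fun x => (F x).im / (|C| + 1)) := by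
  have hFi : Integrable F μ := Integrable.of_bound hFm.aestronglyMeasurable C
    (Eventually.of_forall hC)
  constructor
  · intro B hB
    have h5 : ∫ x in B, (F x).re / (|C| + 1) ∂μ = (∫ x in B, F x ∂μ).re / (|C| + 1) := by
      rw [integral_div]
      congr 1
      exact integral_re hFi.integrableOn
    rw [h5, h B hB]
    simp
  · intro B hB
    have h5 : ∫ x in B, (F x).im / (|C| + 1) ∂μ = (∫ x in B, F x ∂μ).im / (|C| + 1) := by
      rw [integral_div]
      congr 1
      exact integral_im hFi.integrableOn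
    rw [h5, h B hB]
    simp

theorem dec (F : X → ℂ) (C : ℝ) (x : X) : F x =
    ((|C| + 1 : ℝ) : ℂ) * (((F x).re / (|C| + 1) : ℝ) : ℂ) +
      ((|C| + 1 : ℝ) : ℂ) * Complex.I * (((F x).im / (|C| + 1) : ℝ) : ℂ) := by
  have hpos : (0 : ℝ) < |C| + 1 := by positivity
  have hC' : ((|C| : ℝ) : ℂ) + 1 ≠ 0 := by
    have : ((|C| + 1 : ℝ) : ℂ) ≠ 0 := by exact_mod_cast hpos.ne'
    simpa using this
  push_cast
  field_simp
  exact (Complex.re_add_im (F x)).symm.trans (by ring)

theorem re_abs {F : X → ℂ} {C : ℝ} (hC : ∀ x, ‖F x‖ ≤ C) (x : X) :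
    |(F x).re / (|C| + 1)| ≤ 1 ∧ |(F x).im / (|C| + 1)| ≤ 1 := by
  have hpos : (0 : ℝ) < |C| + 1 := by positivity
  have h1 : ‖F x‖ ≤ |C| + 1 := ((hC x).trans (le_abs_self _)).trans (by linarith)
  constructor
  · rw [abs_div, abs_of_pos hpos, div_le_one hpos]
    exact (Complex.abs_re_le_norm _).trans h1
  · rw [abs_div, abs_of_pos hpos, div_le_one hpos]
    exact (Complex.abs_im_le_norm _).trans h1

/-- **Convergence to zero, complex functions.** -/
theorem zero_complex' [Countable ι] [𝔣.NeBot] [𝔣.IsCountablyGenerated]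
    (hK : KExt μ mA mY Φ ℓ) {s₀ : G} (hs₀ : 0 < ℓ s₀) {S : Finset J} (hS : S.Nonempty)
    {g : J → ι → G} (hsep : Sep 𝔣 Bx ℓ g S)
    {F : J → X → ℂ} (hF : ∀ v, AdmC 𝔣 Bx μ mA mY Φ g S v (F v)) : P0 𝔣 Bx μ Φ g F := by
  classical
  have key : ∀ (B : Finset J) (F : J → X → ℂ), (∀ v ∈ B, AdmC 𝔣 Bx μ mA mY Φ g S v (F v)) →
      (∀ v ∉ B, ∃ f : X → ℝ, Adm 𝔣 Bx μ mA mY Φ ℓ g S v f ∧ F v = fun x => (f x : ℂ)) →
      P0 𝔣 Bx μ Φ g F := by
    intro B
    induction B using Finset.induction_on with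
    | empty =>
      intro F _ hF2
      choose f hf hFf using fun v => hF2 v (Finset.notMem_empty v)
      have h4 := zero_real' hK hs₀ hS hsep hf
      filter_upwards [h4] with x hx
      have h5 := (Complex.continuous_ofReal.tendsto _).comp hx
      rw [Complex.ofReal_zero] at h5
      refine h5.congr fun N => ?_
      rw [Function.comp_apply, ← av_ofReal]
      congr 1
      funext n
      push_cast
      refine Finset.prod_congr rfl fun v _ => ?_
      rw [hFf v]
    | insert v B hv ih =>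
      intro F hF1 hF2
      have hBMall : ∀ w, BM (F w) := by
        intro w
        by_cases hw : w ∈ insert v B
        · exact (hF1 w hw).1
        · obtain ⟨f, hf, e⟩ := hF2 w hw
          rw [e]
          exact hf.bm hK
      have hcast : ∀ f : X → ℝ, Adm 𝔣 Bx μ mA mY Φ ℓ g S v f →
          P0 𝔣 Bx μ Φ g (Function.update F v fun x => (f x : ℂ)) := by
        intro f hf
        apply ih
        · intro w hw
          have hwv : w ≠ v := fun e => hv (e ▸ hw)
          rw [Function.update_of_ne hwv]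
          exact hF1 w (Finset.mem_insert_of_mem hw)
        · intro w hw
          by_cases hwv : w = v
          · subst hwv
            exact ⟨f, hf, by rw [Function.update_self]⟩
          · rw [Function.update_of_ne hwv]
            apply hF2
            intro hmem
            rcases Finset.mem_insert.mp hmem with h5 | h5
            · exact hwv h5
            · exact hw h5
      have hcomb : ∀ (C : ℝ) (f₁ f₂ : X → ℝ), Adm 𝔣 Bx μ mA mY Φ ℓ g S v f₁ →
          Adm 𝔣 Bx μ mA mY Φ ℓ g S v f₂ →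
          P0 𝔣 Bx μ Φ g (Function.update F v (((C : ℂ) • fun x => (f₁ x : ℂ)) +
            ((C : ℂ) * Complex.I) • fun x => (f₂ x : ℂ))) := by
        intro C f₁ f₂ hf₁ hf₂
        exact P0_add (P0_smul _ (hcast f₁ hf₁)) (P0_smul _ (hcast f₂ hf₂))
      have hone : ∀ (h : X → ℂ) (C : ℝ), (∀ x, ‖h x‖ ≤ C) →
          Adm 𝔣 Bx μ mA mY Φ ℓ g S v (fun x => (h x).re / (|C| + 1)) →
          Adm 𝔣 Bx μ mA mY Φ ℓ g S v (fun x => (h x).im / (|C| + 1)) →
          P0 𝔣 Bx μ Φ g (Function.update F v h) := by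
        intro h C hC a₁ a₂
        have e : h = (((|C| + 1 : ℝ) : ℂ) • fun x => (((h x).re / (|C| + 1) : ℝ) : ℂ)) +
            (((|C| + 1 : ℝ) : ℂ) * Complex.I) • fun x => (((h x).im / (|C| + 1) : ℝ) : ℂ) := by
          funext x
          simp only [Pi.add_apply, Pi.smul_apply, smul_eq_mul]
          exact dec h C x
        have h6 := hcomb (|C| + 1) _ _ a₁ a₂
        rw [← e] at h6
        exact h6
      obtain ⟨hBM, hSv, hSv'⟩ := hF1 v (Finset.mem_insert_self v B)
      obtain ⟨hFm, C₀, hC₀⟩ := id hBM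
      have hgoal : P0 𝔣 Bx μ Φ g (Function.update F v (F v)) := by
        by_cases hvS : v ∈ S
        · rcases hSv hvS with ⟨hgood, hvan⟩ | hfin
          · obtain ⟨hV₁, hV₂⟩ := van_re (hK.base.le.trans hK.filt.le) hFm hC₀ hvan
            set C : ℝ := |C₀| + 1 with hC
            have hCpos : 0 < C := by positivity
            set f₁ : X → ℝ := fun x => (F v x).re / C with hf₁
            set f₂ : X → ℝ := fun x => (F v x).im / C with hf₂
            have hb₁ : ∀ x, |f₁ x| ≤ 1 := fun x => (re_abs hC₀ x).1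
            have hb₂ : ∀ x, |f₂ x| ≤ 1 := fun x => (re_abs hC₀ x).2
            have hm₁ : Measurable f₁ := (Complex.measurable_re.comp hFm).div_const _
            have hm₂ : Measurable f₂ := (Complex.measurable_im.comp hFm).div_const _
            have hdec : ∀ x, F v x = (C : ℂ) * (f₁ x : ℂ) + (C : ℂ) * Complex.I * (f₂ x : ℂ) :=
              fun x => dec (F v) C₀ x
            refine P0_mean hK.fl hBMall hgood hBM ?_
            intro ε hε
            have happ : ∀ f : X → ℝ, Measurable f → (∀ x, |f x| ≤ 1) → Van μ mY f →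
                ∃ g' : X → ℝ, Adm 𝔣 Bx μ mA mY Φ ℓ g S v g' ∧
                  ∫ x, |f x - g' x| ∂μ ≤ ε / (2 * C) := by
              intro f hfm hfb hfV
              obtain ⟨r, hr⟩ := dense_future hK.fl hK.filt hs₀ hK.gen hfm hfb
                (show (0 : ℝ) < ε / (2 * C) by positivity)
              obtain ⟨g', hg', hge⟩ := exists_CE (cm_le hK.fl hK.filt r) hfm hfb (μ := μ)
              have hg'm : Measurable g' := hg'.1.mono (cm_le hK.fl hK.filt r) le_rfl
              refine ⟨g', ⟨hg'.2.1, fun _ => ⟨⟨r, hg'.1⟩, Sm_good hK hs₀ hgood hg'm hg'.2.1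
                (van_CE (cm_le hK.fl hK.filt r) (base_le hK.base r) hfm hfb hg' hfV)⟩,
                fun h => absurd hvS h⟩, ?_⟩
              refine le_trans (le_of_eq ?_) hr
              apply integral_congr_ae
              filter_upwards [hge] with x hx
              rw [hx]
            obtain ⟨g₁, hg₁, hg₁'⟩ := happ f₁ hm₁ hb₁ hV₁
            obtain ⟨g₂, hg₂, hg₂'⟩ := happ f₂ hm₂ hb₂ hV₂
            obtain ⟨hg₁m, -⟩ := hg₁.bm hK
            obtain ⟨hg₂m, -⟩ := hg₂.bm hK
            have hg₁r : Measurable g₁ := by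
              have := Complex.measurable_re.comp hg₁m
              exact this
            have hg₂r : Measurable g₂ := by
              have := Complex.measurable_re.comp hg₂m
              exact this
            refine ⟨((C : ℂ) • fun x => (g₁ x : ℂ)) + ((C : ℂ) * Complex.I) •
              fun x => (g₂ x : ℂ), ⟨(hg₁m.const_smul _).add (hg₂m.const_smul _), 2 * C,
              fun x => ?_⟩, ?_, hcomb C g₁ g₂ hg₁ hg₂⟩
            · simp only [Pi.add_apply, Pi.smul_apply, smul_eq_mul]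
              refine (norm_add_le _ _).trans ?_
              rw [norm_mul, norm_mul, norm_mul, Complex.norm_I, Complex.norm_real,
                Complex.norm_real, Complex.norm_real, Real.norm_of_nonneg hCpos.le,
                Real.norm_eq_abs, Real.norm_eq_abs]
              have a1 := hg₁.1 x
              have a2 := hg₂.1 x
              nlinarith [abs_nonneg (g₁ x), abs_nonneg (g₂ x)]
            · have hi₁ : Integrable (fun x => |f₁ x - g₁ x|) μ := by
                refine Integrable.of_bound (hm₁.sub hg₁r).abs.aestronglyMeasurable 2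
                  (Eventually.of_forall fun x => ?_)
                rw [Real.norm_eq_abs, abs_abs]
                exact (abs_sub _ _).trans (by linarith [hb₁ x, hg₁.1 x])
              have hi₂ : Integrable (fun x => |f₂ x - g₂ x|) μ := by
                refine Integrable.of_bound (hm₂.sub hg₂r).abs.aestronglyMeasurable 2
                  (Eventually.of_forall fun x => ?_)
                rw [Real.norm_eq_abs, abs_abs]
                exact (abs_sub _ _).trans (by linarith [hb₂ x, hg₂.1 x])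
              have hle : ∀ x, ‖F v x - (((C : ℂ) • fun x => (g₁ x : ℂ)) +
                  ((C : ℂ) * Complex.I) • fun x => (g₂ x : ℂ)) x‖ ≤
                  C * |f₁ x - g₁ x| + C * |f₂ x - g₂ x| := by
                intro x
                simp only [Pi.add_apply, Pi.smul_apply, smul_eq_mul]
                rw [hdec x]
                have e : (C : ℂ) * (f₁ x : ℂ) + (C : ℂ) * Complex.I * (f₂ x : ℂ) -
                    ((C : ℂ) * (g₁ x : ℂ) + (C : ℂ) * Complex.I * (g₂ x : ℂ)) =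
                    (C : ℂ) * ((f₁ x - g₁ x : ℝ) : ℂ) +
                      (C : ℂ) * Complex.I * ((f₂ x - g₂ x : ℝ) : ℂ) := by
                  push_cast
                  ring
                rw [e]
                refine (norm_add_le _ _).trans ?_
                rw [norm_mul, norm_mul, norm_mul, Complex.norm_I, Complex.norm_real,
                  Complex.norm_real, Complex.norm_real, Real.norm_of_nonneg hCpos.le,
                  Real.norm_eq_abs, Real.norm_eq_abs, mul_one]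
              refine (integral_mono_of_nonneg (Eventually.of_forall fun x => norm_nonneg _)
                ((hi₁.const_mul C).add (hi₂.const_mul C)) (Eventually.of_forall hle)).trans ?_
              rw [integral_add' (hi₁.const_mul C) (hi₂.const_mul C), integral_const_mul,
                integral_const_mul]
              calc C * ∫ x, |f₁ x - g₁ x| ∂μ + C * ∫ x, |f₂ x - g₂ x| ∂μ ≤
                  C * (ε / (2 * C)) + C * (ε / (2 * C)) :=
                    add_le_add (mul_le_mul_of_nonneg_left hg₁' hCpos.le)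
                      (mul_le_mul_of_nonneg_left hg₂' hCpos.le)
                _ = ε := by field_simp; norm_num
          · refine P0_unif hK.fl hBMall ?_
            intro ε hε
            obtain ⟨h, h1, ⟨a, ha⟩, ⟨C, hC⟩, b, hb⟩ := hfin ε hε
            refine ⟨h, h1, ?_⟩
            have hhm : Measurable h := ha.mono (cm_le hK.fl hK.filt a) le_rfl
            obtain ⟨hV₁, hV₂⟩ := van_re (cm_le hK.fl hK.filt b) hhm hC hb
            have hre : Measurable[cm mA Φ a] fun x => (h x).re / (|C| + 1) :=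
              (Complex.measurable_re.comp ha).div_const _
            have him : Measurable[cm mA Φ a] fun x => (h x).im / (|C| + 1) :=
              (Complex.measurable_im.comp ha).div_const _
            refine hone h C hC ⟨fun x => (re_abs hC x).1, fun _ => ⟨⟨a, hre⟩, ?_⟩,
              fun h => absurd hvS h⟩ ⟨fun x => (re_abs hC x).2, fun _ => ⟨⟨a, him⟩, ?_⟩,
              fun h => absurd hvS h⟩
            · exact Sm_fin hK (hre.mono (cm_le hK.fl hK.filt a) le_rfl)
                (fun x => (re_abs hC x).1) hV₁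
            · exact Sm_fin hK (him.mono (cm_le hK.fl hK.filt a) le_rfl)
                (fun x => (re_abs hC x).2) hV₂
        · have hFY := hSv' hvS
          exact hone (F v) C₀ hC₀ ⟨fun x => (re_abs hC₀ x).1, fun h => absurd h hvS, fun _ =>
            (Complex.measurable_re.comp hFY).div_const _⟩
            ⟨fun x => (re_abs hC₀ x).2, fun h => absurd h hvS, fun _ =>
            (Complex.measurable_im.comp hFY).div_const _⟩
      rwa [Function.update_eq_self] at hgoal
  exact key Finset.univ F (fun v _ => hF v) fun v hv => absurd (Finset.mem_univ v) hv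

/-- the homomorphism takes positive values -/
theorem exists_pos [𝔣.NeBot] (hBx : ∀ N, (Bx N).Nonempty) (hA : Filt mX mA Φ ℓ) {t : ι → G}
    (hlp : LP 𝔣 Bx (qc ℓ t 1)) : ∃ s₀ : G, 0 < ℓ s₀ := by
  by_contra hcon
  push Not at hcon
  have h0 : ∀ a, ℓ a = 0 := by
    intro a
    have h1 := hcon a
    have h2 := hcon a⁻¹
    rw [hA.inv] at h2
    linarith
  have h1 := hlp Unit inferInstance (Measure.dirac ()) inferInstance (fun _ _ => 1)
    (fun _ => measurable_const) (fun _ _ => by simp) (fun N => by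
      have e : ∀ p ∈ Bx N ×ˢ Bx N, qc ℓ t 1 p = 1 := by
        intro p _
        unfold qc
        rw [h0, h0, sub_zero, abs_zero, if_pos one_pos]
      rw [Finset.sum_congr rfl e]
      simp [sq])
  obtain ⟨z, hz⟩ := h1.exists
  have h2 : ∀ N, avr (Bx N) (fun _ => (1 : ℝ)) = 1 := by
    intro N
    unfold Pool.Agent.TH739.PA.avr
    have : ((Bx N).card : ℝ) ≠ 0 := by
      have := (hBx N).card_pos
      positivity
    simp [this]
  simp only [h2] at hz
  exact absurd (tendsto_nhds_unique hz tendsto_const_nhds) (by norm_num)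

/-- **The base is characteristic.** -/
theorem char [Countable ι] [𝔣.NeBot] [𝔣.IsCountablyGenerated] (hBx : ∀ N, (Bx N).Nonempty)
    (hK : KExt μ mA mY Φ ℓ) {g : J → ι → G} (hsep : Sep 𝔣 Bx ℓ g Finset.univ)
    {f e : J → X → ℂ} (hf : ∀ j, BM (f j)) (he : ∀ j, BM (e j))
    (heY : ∀ j, Measurable[mY] (e j))
    (hslot : ∀ j, Slot 𝔣 Bx μ mA mY Φ (g j) fun x => f j x - e j x) :
    ∀ᵐ x ∂μ, Tendsto (fun N => av (Bx N) fun n => (∏ j, f j (Φ (g j n) x) -
      ∏ j, e j (Φ (g j n) x))) 𝔣 (𝓝 0) := by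
  classical
  have key : ∀ t : Finset J, t ≠ ∅ → ∀ᵐ x ∂μ, Tendsto (fun N => av (Bx N) fun n =>
      (∏ j ∈ t, (f j (Φ (g j n) x) - e j (Φ (g j n) x))) *
        ∏ j ∈ Finset.univ \ t, e j (Φ (g j n) x)) 𝔣 (𝓝 0) := by
    intro t ht
    have htn := Finset.nonempty_of_ne_empty ht
    obtain ⟨j₀, hj₀⟩ := id htn
    obtain ⟨s₀, hs₀⟩ := exists_pos hBx hK.filt (hsep.lp j₀ (Finset.mem_univ _) 1)
    have hz := zero_complex' hK hs₀ htn (g := g)
      ⟨fun v _ => hsep.lp v (Finset.mem_univ _), fun v _ w _ => hsep.cl v (Finset.mem_univ _) w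
        (Finset.mem_univ _)⟩
      (F := fun j => if j ∈ t then (fun x => f j x - e j x) else e j) (fun v => by
        by_cases hv : v ∈ t
        · simp only [hv, if_true]
          obtain ⟨m₁, C₁, b₁⟩ := hf v
          obtain ⟨m₂, C₂, b₂⟩ := he v
          exact ⟨⟨m₁.sub m₂, C₁ + C₂, fun x => (norm_sub_le _ _).trans
            (add_le_add (b₁ x) (b₂ x))⟩, fun _ => hslot v, fun h => absurd hv h⟩
        · simp only [hv, if_false]
          exact ⟨he v, fun h => absurd h hv, fun _ => heY v⟩)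
    filter_upwards [hz] with x hx
    refine hx.congr fun N => ?_
    congr 1
    funext n
    rw [← Finset.prod_mul_prod_compl t, ← Finset.compl_eq_univ_sdiff]
    congr 1
    · refine Finset.prod_congr rfl fun j hj => ?_
      rw [if_pos hj]
    · refine Finset.prod_congr rfl fun j hj => ?_
      rw [if_neg (Finset.mem_compl.1 hj)]
  have hall : ∀ᵐ x ∂μ, ∀ t : Finset J, t ≠ ∅ → Tendsto (fun N => av (Bx N) fun n =>
      (∏ j ∈ t, (f j (Φ (g j n) x) - e j (Φ (g j n) x))) *
        ∏ j ∈ Finset.univ \ t, e j (Φ (g j n) x)) 𝔣 (𝓝 0) := by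
    rw [ae_all_iff]
    intro t
    by_cases ht : t = ∅
    · exact Eventually.of_forall fun x h => absurd ht h
    · filter_upwards [key t ht] with x hx _
      exact hx
  filter_upwards [hall] with x hx
  have hsum := tendsto_finsetSum ((Finset.univ : Finset J).powerset.erase ∅) fun t ht =>
    hx t (Finset.ne_of_mem_erase ht)
  rw [Finset.sum_const_zero] at hsum
  refine hsum.congr fun N => ?_
  have hav : ∀ (s : Finset (Finset J)) (a : Finset J → ι → ℂ),
      av (Bx N) (fun n => ∑ i ∈ s, a i n) = ∑ i ∈ s, av (Bx N) (a i) := by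
    intro s a
    unfold Pool.Agent.TH739.PA.av
    rw [Finset.sum_comm, Finset.mul_sum]
  rw [← hav]
  congr 1
  funext n
  have h1 := Finset.prod_add (fun j => f j (Φ (g j n) x) - e j (Φ (g j n) x))
    (fun j => e j (Φ (g j n) x)) (Finset.univ : Finset J)
  have h2 : ∏ j, (f j (Φ (g j n) x) - e j (Φ (g j n) x) + e j (Φ (g j n) x)) =
      ∏ j, f j (Φ (g j n) x) := Finset.prod_congr rfl fun j _ => by ring
  rw [h2, ← Finset.add_sum_erase _ _ (Finset.empty_mem_powerset _)] at h1
  rw [h1, Finset.prod_empty, one_mul, Finset.sdiff_empty]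
  ring

end Pool.Agent.Helper77.KS
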