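import Pool.Agent.Helper77.KS.Cplx
import Pool.Agent.Helper77.KS.Count

/-!
# Sequences over a Kolmogorov extension: the two-sided averages
-/

set_option autoImplicit false

open Filter Topology MeasureTheory
open scoped ENNReal

noncomputable section

namespace Pool.Agent.Helper77.KS

open Pool.Agent.W761.Gauss (BM BM_of_memLp)
open Pool.Agent.TH739.PA (av avr Good LP Icc_card LP_two_sided good_pow)
open Pool.Agent.TH784.KE (KExt cm cm_le base_le exists_cond)

variable {X G : Type} [Group G]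

/-- The averages over `|n| ≤ N` of single bounded functions along the maps `t n` converge almost
everywhere. -/
def SingleAveragesConverge {Z : Type} [MeasurableSpace Z] (P : Measure Z) (t : ℤ → Z → Z) : Prop :=
  ∀ H : Z → ℝ, Measurable H → (∃ C : ℝ, ∀ z, |H z| ≤ C) →
    ∀ᵐ z ∂P, ∃ L : ℝ, Tendsto (fun N : ℕ => ((2 * N + 1 : ℕ) : ℝ)⁻¹ *
      ∑ n ∈ Finset.Icc (-(N : ℤ)) (N : ℤ), H (t n z)) atTop (𝓝 L)

/-- `f` is an almost everywhere uniform limit of bounded functions `h` which are measurable with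
respect to `(Φ a)⁻¹ 𝒜` for some `a` and have the same conditional expectation with respect to
`(Φ b)⁻¹ 𝒜` and to `𝒴` for some `b`. -/
def FiniteMemory {mX : MeasurableSpace X} (μ : Measure X) (𝒜 𝒴 : MeasurableSpace X)
    (Φ : G →* Equiv.Perm X) (f : X → ℂ) : Prop :=
  ∀ ε : ℝ, 0 < ε → ∃ (h : X → ℂ) (a b : G), Measurable[𝒜.comap (Φ a : X → X)] h ∧
    (∃ C : ℝ, ∀ x, ‖h x‖ ≤ C) ∧ μ[h | 𝒜.comap (Φ b : X → X)] =ᵐ[μ] μ[h | 𝒴] ∧
    ∀ᵐ x ∂μ, ‖f x - h x‖ ≤ ε

variable {mA mY mX : MeasurableSpace X} {μ : Measure X} [IsProbabilityMeasure μ]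
  {Φ : G →* Equiv.Perm X} {ℓ : G → ℝ}

theorem slot_fin (hK : KExt μ mA mY Φ ℓ) {t : ℤ → G} {f e : X → ℂ} (hf : BM f)
    (hee : e =ᵐ[μ] μ[f | mY])
    (hfin : FiniteMemory μ mA mY Φ f) :
    Slot atTop (fun N : ℕ => Finset.Icc (-(N : ℤ)) (N : ℤ)) μ mA mY Φ t
      fun x => f x - e x := by
  right
  intro ε hε
  obtain ⟨h, a, b, ha, ⟨C, hC⟩, hcond, happ⟩ := hfin (ε / 2) (by positivity)
  obtain ⟨hfm, Cf, hCf⟩ := hf
  have hYX : mY ≤ mX := hK.base.le.trans hK.filt.le
  have hhm : Measurable h := ha.mono (cm_le hK.fl hK.filt a) le_rfl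
  obtain ⟨e', ⟨he'm, C', hC'⟩, heY', hee', hint⟩ := exists_cond (μ := μ) hYX
    (f := h) ⟨hhm, C, hC⟩
  have hfi : Integrable f μ := Integrable.of_bound hfm.aestronglyMeasurable Cf
    (Eventually.of_forall hCf)
  have hhi : Integrable h μ := Integrable.of_bound hhm.aestronglyMeasurable C
    (Eventually.of_forall hC)
  have hei : Integrable e' μ := Integrable.of_bound he'm.aestronglyMeasurable C'
    (Eventually.of_forall hC')
  refine ⟨fun x => h x - e' x, ?_, ⟨a, ha.sub (heY'.mono (base_le hK.base a) le_rfl)⟩,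
    ⟨C + C', fun x => (norm_sub_le _ _).trans (add_le_add (hC x) (hC' x))⟩, b, fun B hB => ?_⟩
  · have h1 : ∀ᵐ x ∂μ, ‖(μ[f - h | mY]) x‖ ≤ ε / 2 := by
      refine ae_bdd_norm_condExp_of_ae_bdd_norm (μ := μ) (m := mY) (f := f - h) ?_
      filter_upwards [happ] with x hx
      exact hx
    have h2 := condExp_sub (μ := μ) hfi hhi mY
    filter_upwards [happ, h1, h2, hee, hee'] with x hx1 hx2 hx3 hx4 hx5
    rw [hx3, Pi.sub_apply, ← hx4, ← hx5] at hx2
    have e1 : f x - e x - (h x - e' x) = (f x - h x) - (e x - e' x) := by ring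
    rw [e1]
    refine (norm_sub_le _ _).trans ?_
    linarith
  · have hBX : MeasurableSet B := cm_le hK.fl hK.filt b _ hB
    rw [integral_sub hhi.integrableOn hei.integrableOn,
      ← setIntegral_condExp (cm_le hK.fl hK.filt b) hhi hB,
      setIntegral_congr_ae (g := e') hBX]
    · exact sub_self _
    · filter_upwards [hcond, hee'] with x hx1 hx2 _
      rw [hx2]
      exact hx1

/-- **The base is characteristic (two-sided averages).** -/
theorem two_sided {m : ℕ} (hK : KExt μ mA mY Φ ℓ) (g : Fin m → ℤ → G)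
    (hpairs : ∀ j, ∀ R : ℝ, Summable fun p : ℤ × ℤ => qc ℓ (g j) R p /
      (1 + max |(p.1 : ℝ)| |(p.2 : ℝ)|) ^ 2)
    (hclose : ∀ i j, i ≠ j → ∀ R : ℝ, Tendsto (fun N : ℕ =>
      avr (Finset.Icc (-(N : ℤ)) N) fun n =>
        (if |ℓ (g i n) - ℓ (g j n)| < R then (1 : ℝ) else 0)) atTop (𝓝 0))
    {f : Fin m → X → ℂ} (hf : ∀ j, MemLp (f j) ∞ μ)
    (hsingle : ∀ j, (∃ b : G, ∀ n, g j n = b ^ n) ∨
      SingleAveragesConverge μ (fun n => (Φ (g j n) : X → X)) ∨
      FiniteMemory μ mA mY Φ (f j)) :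
    ∀ᵐ x ∂μ, Tendsto (fun N : ℕ => ((2 * N + 1 : ℕ) : ℂ)⁻¹ *
      ∑ n ∈ Finset.Icc (-(N : ℤ)) (N : ℤ), (∏ j, f j (Φ (g j n) x) -
        ∏ j, (μ[f j | mY]) (Φ (g j n) x))) atTop (𝓝 0) := by
  have hYX : mY ≤ mX := hK.base.le.trans hK.filt.le
  choose F hF hfF using fun j => BM_of_memLp (hf j)
  choose e he heY hee hfe using fun j => exists_cond (μ := μ) hYX (hF j)
  have hgoodslot : ∀ j, Slot atTop (fun N : ℕ => Finset.Icc (-(N : ℤ)) (N : ℤ)) μ mA mY Φ (g j)
      fun x => F j x - e j x := by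
    intro j
    rcases hsingle j with ⟨b, hb⟩ | hs | hfin
    · left
      refine ⟨?_, hfe j⟩
      have h1 := good_pow (P := μ) (Φ b) (hK.fl b) (by
        rw [← map_inv]
        exact hK.fl b⁻¹)
      have h2 : (fun n => (Φ (g j n) : X → X)) = fun (n : ℤ) (z : X) => ((Φ b) ^ n) z := by
        funext n z
        rw [hb, map_zpow]
      rw [h2]
      exact h1
    · left
      refine ⟨fun H hH hC => ?_, hfe j⟩
      filter_upwards [hs H hH hC] with x hx
      obtain ⟨L, hL⟩ := hx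
      refine ⟨L, hL.congr fun N => ?_⟩
      rw [avr, Icc_card]
    · refine slot_fin hK (hF j) (hee j) ?_
      intro ε hε
      obtain ⟨h, a, b, h1, h2, h3, h4⟩ := hfin ε hε
      refine ⟨h, a, b, h1, h2, h3, ?_⟩
      filter_upwards [h4, hfF j] with x hx1 hx2
      rw [← hx2]
      exact hx1
  have hmain := char (𝔣 := atTop) (Bx := fun N : ℕ => Finset.Icc (-(N : ℤ)) (N : ℤ))
    (fun N => ⟨0, by simp⟩) hK (g := g) ⟨fun v _ R => LP_two_sided (fun p => by
      unfold qc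
      split_ifs <;> norm_num) (hpairs v R), fun v _ w _ hvw => hclose v w hvw⟩ hF he heY
      hgoodslot
  have h1 : ∀ᵐ x ∂μ, ∀ (n : ℤ) (j : Fin m), f j (Φ (g j n) x) = F j (Φ (g j n) x) := by
    rw [ae_all_iff]
    intro n
    rw [ae_all_iff]
    intro j
    exact (hK.fl _).quasiMeasurePreserving.ae (hfF j)
  have h2 : ∀ᵐ x ∂μ, ∀ (n : ℤ) (j : Fin m),
      (μ[f j | mY]) (Φ (g j n) x) = e j (Φ (g j n) x) := by
    rw [ae_all_iff]
    intro n
    rw [ae_all_iff]
    intro j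
    have h3 : μ[f j | mY] =ᵐ[μ] e j := (condExp_congr_ae (hfF j)).trans (hee j).symm
    exact (hK.fl _).quasiMeasurePreserving.ae h3
  filter_upwards [hmain, h1, h2] with x hx hx1 hx2
  refine hx.congr fun N => ?_
  rw [av, Icc_card]
  congr 1
  refine Finset.sum_congr rfl fun n _ => ?_
  congr 1
  · exact Finset.prod_congr rfl fun j _ => (hx1 n j).symm
  · exact Finset.prod_congr rfl fun j _ => (hx2 n j).symm

end Pool.Agent.Helper77.KS
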