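import Pool.Agent.TH784.KE.Multi
import Pool.Agent.TH739.PA.Act

/-!
# Products along arbitrary sequences over a Kolmogorov extension: real functions
-/

set_option autoImplicit false
set_option linter.unusedSectionVars false

open MeasureTheory Filter Topology

noncomputable section

namespace Pool.Agent.Helper77.KS

open Pool.Agent.TH784.KE (cm Flow Filt Base CE DD top DD_abs DD_past prod_abs_le orth_shift
  cm_mono cm_le meas_shift base_le pointwise errb)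
open Pool.Agent.TH739.PA (av avr Good LP avr_mono avr_abs avr_nonneg avr_const_le int_lim
  avr_add avr_mul)

variable {X : Type} {mA mY mX : MeasurableSpace X} {μ : Measure X} [IsProbabilityMeasure μ]
variable {G : Type} [Group G]
variable {Φ : G →* Equiv.Perm X} {ℓ : G → ℝ}
variable {J : Type} [DecidableEq J]

/-- Two terms with separated top positions are orthogonal. -/
theorem orth_pair (hFl : Flow μ Φ) (hA : Filt mX mA Φ ℓ) (hY : Base mY mA Φ) {V : Finset J}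
    {v : J} (hv : v ∈ V) {p p' : J → G}
    {F H : J → X → ℝ} {W W' : X → ℝ} {r s : G} {R : ℝ}
    (hsr : ℓ s ≤ ℓ r) (hR : ℓ r - ℓ s ≤ R) (hR0 : 0 ≤ R)
    (hF : ∀ w ∈ V, Measurable[cm mA Φ r] (F w) ∧ ∀ x, |F w x| ≤ 1)
    (hH : CE μ (cm mA Φ s) (F v) (H v))
    (hW : Measurable[mY] W ∧ ∀ x, |W x| ≤ 1) (hW' : Measurable[mY] W' ∧ ∀ x, |W' x| ≤ 1)
    (hlt : ℓ (p' v) + R ≤ ℓ (p v)) :
    ∫ x, DD V Φ ℓ R F H W p v x * DD V Φ ℓ R F H W' p' v x ∂μ = 0 := by
  classical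
  by_cases htop : top V ℓ R p v
  swap
  · have e : ∀ x, DD V Φ ℓ R F H W p v x = 0 := by
      intro x
      unfold DD
      rw [if_neg htop]
    simp only [e, zero_mul, integral_zero]
  set t : G := s * p v with ht
  have hpast : Measurable[cm mA Φ t] (DD V Φ ℓ R F H W' p' v) := by
    refine DD_past hA hY hv hsr hR0 (fun w hw => (hF w hw).1) hH.1 hW'.1 ?_
    rw [ht, hA.hom]
    linarith
  have hprod : Measurable[cm mA Φ t] fun x => ∏ w ∈ V.erase v, F w (Φ (p w) x) := by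
    refine Finset.measurable_fun_prod _ fun w hw => ?_
    refine (meas_shift _ (hF w (Finset.mem_of_mem_erase hw)).1).mono
      (cm_mono hA ?_) le_rfl
    have h9 : ℓ (p w) + R ≤ ℓ (p v) :=
      htop w (Finset.mem_of_mem_erase hw) (Finset.ne_of_mem_erase hw)
    rw [ht, hA.hom, hA.hom]
    linarith
  have hWm : Measurable[cm mA Φ t] W := hW.1.mono (base_le hY t) le_rfl
  have hfm : Measurable (F v) := (hF v hv).1.mono (cm_le hFl hA r) le_rfl
  have hb : ∀ x, |((∏ w ∈ V.erase v, F w (Φ (p w) x)) * W x) *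
      DD V Φ ℓ R F H W' p' v x| ≤ 1 * 2 := by
    intro x
    rw [abs_mul, abs_mul]
    have h2 := prod_abs_le (Φ := Φ) (V := V.erase v) (F := F)
      (fun w hw => (hF w (Finset.mem_of_mem_erase hw)).2) p x
    have h3 := hW.2 x
    have h4 : |∏ w ∈ V.erase v, F w (Φ (p w) x)| * |W x| ≤ 1 := by
      calc _ ≤ (1 : ℝ) * 1 := mul_le_mul h2 h3 (abs_nonneg _) zero_le_one
        _ = 1 := one_mul 1
    refine mul_le_mul h4 ?_ (abs_nonneg _) zero_le_one
    exact DD_abs (Φ := Φ) (ℓ := ℓ) (R := R) hv (fun w hw => (hF w hw).2) hH.2.1 hW'.2 p' x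
  have key := orth_shift hFl hA hfm hH (p v) ((hprod.mul hWm).mul hpast) hb
  have e : ∀ x, DD V Φ ℓ R F H W p v x * DD V Φ ℓ R F H W' p' v x =
      (F v (Φ (p v) x) - H v (Φ (p v) x)) *
        ((((∏ w ∈ V.erase v, F w (Φ (p w) x)) * W x)) * DD V Φ ℓ R F H W' p' v x) := by
    intro x
    conv_lhs =>
      enter [1]
      unfold DD
    rw [if_pos htop]
    ring
  simp only [e]
  exact key

open Classical in
/-- the number of pairs with close positions -/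
def qc {ι : Type} (ℓ : G → ℝ) (g : ι → G) (R : ℝ) (p : ι × ι) : ℝ :=
  if |ℓ (g p.1) - ℓ (g p.2)| < R then 1 else 0

theorem DD_meas (hFl : Flow μ Φ) (hA : Filt mX mA Φ ℓ) (hY : Base mY mA Φ) {V : Finset J}
    {v : J} (hv : v ∈ V) {p : J → G}
    {F H : J → X → ℝ} {W : X → ℝ} {r s : G} {R : ℝ}
    (hsr : ℓ s ≤ ℓ r) (hR0 : 0 ≤ R)
    (hF : ∀ w ∈ V, Measurable[cm mA Φ r] (F w) ∧ ∀ x, |F w x| ≤ 1)
    (hH : CE μ (cm mA Φ s) (F v) (H v))
    (hW : Measurable[mY] W ∧ ∀ x, |W x| ≤ 1) : Measurable (DD V Φ ℓ R F H W p v) :=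
  (DD_past hA hY hv hsr hR0 (fun w hw => (hF w hw).1) hH.1 hW.1
      (t := r * p v) (hA.hom _ _).ge).mono (cm_le hFl hA _) le_rfl

/-- The second moment of a sum of orthogonal terms. -/
theorem second (hFl : Flow μ Φ) (hA : Filt mX mA Φ ℓ) (hY : Base mY mA Φ) {V : Finset J}
    {v : J} (hv : v ∈ V) {ι : Type} {g : J → ι → G}
    {F H : J → X → ℝ} {W : ι → X → ℝ} {r s : G} {R : ℝ}
    (hsr : ℓ s ≤ ℓ r) (hR : ℓ r - ℓ s ≤ R) (hR0 : 0 ≤ R)
    (hF : ∀ w ∈ V, Measurable[cm mA Φ r] (F w) ∧ ∀ x, |F w x| ≤ 1)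
    (hH : CE μ (cm mA Φ s) (F v) (H v))
    (hW : ∀ n, Measurable[mY] (W n) ∧ ∀ x, |W n x| ≤ 1) (B : Finset ι) :
    ∫ x, (∑ n ∈ B, DD V Φ ℓ R F H (W n) (fun j => g j n) v x / 2) ^ 2 ∂μ ≤
      ∑ p ∈ B ×ˢ B, qc ℓ (g v) R p := by
  classical
  set D : ι → X → ℝ := fun n x => DD V Φ ℓ R F H (W n) (fun j => g j n) v x / 2 with hD
  have hDm : ∀ n, Measurable (D n) := fun n =>
    (DD_meas hFl hA hY hv hsr hR0 hF hH (hW n)).div_const 2
  have hDb : ∀ n x, |D n x| ≤ 1 := by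
    intro n x
    rw [hD]
    show |DD V Φ ℓ R F H (W n) (fun j => g j n) v x / 2| ≤ 1
    rw [abs_div, abs_two]
    have := DD_abs (Φ := Φ) (ℓ := ℓ) (R := R) hv (fun w hw => (hF w hw).2) hH.2.1 (hW n).2
      (fun j => g j n) x
    linarith
  have hint : ∀ p : ι × ι, Integrable (fun x => D p.1 x * D p.2 x) μ := fun p =>
    Integrable.of_bound ((hDm _).mul (hDm _)).aestronglyMeasurable 1
      (Eventually.of_forall fun x => by
        rw [Real.norm_eq_abs, abs_mul]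
        exact mul_le_one₀ (hDb _ x) (abs_nonneg _) (hDb _ x))
  have e : (fun x => (∑ n ∈ B, D n x) ^ 2) = fun x => ∑ p ∈ B ×ˢ B, D p.1 x * D p.2 x := by
    funext x
    rw [sq, Finset.sum_mul_sum, ← Finset.sum_product']
  show ∫ x, (∑ n ∈ B, D n x) ^ 2 ∂μ ≤ _
  rw [e, integral_finsetSum _ fun p _ => hint p]
  refine Finset.sum_le_sum fun p _ => ?_
  unfold qc
  split_ifs with h
  · calc ∫ x, D p.1 x * D p.2 x ∂μ ≤ ∫ _x, (1 : ℝ) ∂μ := by
          refine integral_mono (hint p) (integrable_const _) fun x => ?_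
          refine (le_abs_self _).trans ?_
          rw [abs_mul]
          exact mul_le_one₀ (hDb _ x) (abs_nonneg _) (hDb _ x)
      _ = 1 := by simp
  · rw [not_lt, le_abs] at h
    refine le_of_eq ?_
    have key : ∀ n n' : ι, ℓ (g v n') + R ≤ ℓ (g v n) → ∫ x, D n x * D n' x ∂μ = 0 := by
      intro n n' hn
      have h1 := orth_pair hFl hA hY hv hsr hR hR0 hF hH (hW n) (hW n')
        (p := fun j => g j n) (p' := fun j => g j n') hn
      have h2 : ∀ x, D n x * D n' x = 4⁻¹ * (DD V Φ ℓ R F H (W n) (fun j => g j n) v x *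
          DD V Φ ℓ R F H (W n') (fun j => g j n') v x) := by
        intro x
        rw [hD]
        ring
      simp only [h2]
      rw [integral_const_mul, h1, mul_zero]
    rcases h with h | h
    · exact key p.1 p.2 (by linarith)
    · have h3 := key p.2 p.1 (by linarith)
      rw [← h3]
      congr 1
      funext x
      ring

variable [Fintype J] {I ι : Type} {𝔣 : Filter I} {Bx : I → Finset ι}

/-- `f` has small conditional expectations on the remote past, also on average along `t`. -/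
def Sm (𝔣 : Filter I) (Bx : I → Finset ι) (μ : Measure X) (mA : MeasurableSpace X)
    (Φ : G →* Equiv.Perm X) (ℓ : G → ℝ) (t : ι → G) (f : X → ℝ) : Prop :=
  ∀ ε : ℝ, 0 < ε → ∃ s₁ : G, ∀ s : G, ℓ s ≤ ℓ s₁ → ∀ H : X → ℝ, Measurable[mX] H →
    (∀ x, |H x| ≤ 1) → H =ᵐ[μ] μ[f | cm mA Φ s] → ∃ E : X → ℝ, 0 ≤ᵐ[μ] E ∧ Integrable E μ ∧
      ∫ x, E x ∂μ ≤ ε ∧
      ∀ᵐ x ∂μ, Tendsto (fun N => avr (Bx N) fun n => |H (Φ (t n) x)|) 𝔣 (𝓝 (E x))

/-- few close pairs and few close positions -/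
structure Sep (𝔣 : Filter I) (Bx : I → Finset ι) (ℓ : G → ℝ) (g : J → ι → G) (S : Finset J) :
    Prop where
  lp : ∀ v ∈ S, ∀ R : ℝ, LP 𝔣 Bx (qc ℓ (g v) R)
  cl : ∀ v ∈ S, ∀ w ∈ S, v ≠ w → ∀ R : ℝ, Tendsto (fun N => avr (Bx N) fun n =>
    (if |ℓ (g v n) - ℓ (g w n)| < R then (1 : ℝ) else 0)) 𝔣 (𝓝 0)

theorem avr_sum {α : Type*} (B : Finset ι) (s : Finset α) (a : α → ι → ℝ) :
    avr B (fun n => ∑ i ∈ s, a i n) = ∑ i ∈ s, avr B (a i) := by
  unfold Pool.Agent.TH739.PA.avr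
  rw [Finset.sum_comm, Finset.mul_sum]

/-- The averages are almost everywhere eventually bounded by the error term. -/
theorem bound_ae [𝔣.NeBot] [𝔣.IsCountablyGenerated]
    (hFl : Flow μ Φ) (hA : Filt mX mA Φ ℓ) (hY : Base mY mA Φ)
    {S : Finset J} (hS : S.Nonempty) {g : J → ι → G} (hsep : Sep 𝔣 Bx ℓ g S)
    {F H : J → X → ℝ} {r s : G} {R : ℝ} (hsr : ℓ s ≤ ℓ r) (hR : ℓ r - ℓ s ≤ R) (hR0 : 0 < R)
    (hF : ∀ v ∈ S, Measurable[cm mA Φ r] (F v)) (hF1 : ∀ v x, |F v x| ≤ 1)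
    (hFY : ∀ v ∉ S, Measurable[mY] (F v)) (hH : ∀ v ∈ S, CE μ (cm mA Φ s) (F v) (H v))
    {η : ℝ} (hη : 0 < η) :
    ∀ᵐ x ∂μ, ∀ᶠ N in 𝔣, |avr (Bx N) fun n => ∏ v, F v (Φ (g v n) x)| ≤
        η + avr (Bx N) fun n => errb Φ ℓ R H S (fun v => g v n) x := by
  classical
  let W : ι → X → ℝ := fun n x => ∏ v ∈ Sᶜ, F v (Φ (g v n) x)
  have hW : ∀ n, Measurable[mY] (W n) ∧ ∀ x, |W n x| ≤ 1 := by
    intro n
    refine ⟨Finset.measurable_fun_prod _ fun v hv => ?_, fun x =>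
      prod_abs_le (fun w _ => hF1 w) _ x⟩
    exact (hFY v (Finset.mem_compl.1 hv)).comp (hY.inv _)
  have hF' : ∀ w ∈ S, Measurable[cm mA Φ r] (F w) ∧ ∀ x, |F w x| ≤ 1 :=
    fun w hw => ⟨hF w hw, hF1 w⟩
  have hae : ∀ᵐ x ∂μ, ∀ v ∈ S, Tendsto (fun N => avr (Bx N) fun n =>
      DD S Φ ℓ R F H (W n) (fun j => g j n) v x / 2) 𝔣 (𝓝 0) := by
    refine (ae_ball_iff S.countable_toSet).2 fun v hv => ?_
    refine hsep.lp v hv R X mX μ inferInstance
      (fun n x => DD S Φ ℓ R F H (W n) (fun j => g j n) v x / 2)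
      (fun n => (DD_meas hFl hA hY hv hsr hR0.le hF' (hH v hv) (hW n)).div_const 2)
      (fun n x => ?_) (fun N => second hFl hA hY hv hsr hR hR0.le hF' (hH v hv) hW (Bx N))
    rw [abs_div, abs_two]
    have := DD_abs (Φ := Φ) (ℓ := ℓ) (R := R) hv (fun w _ => hF1 w) (hH v hv).2.1 (hW n).2
      (fun j => g j n) x
    linarith
  filter_upwards [hae] with x hx
  have h1 : Tendsto (fun N => ∑ v ∈ S, 2 * avr (Bx N) fun n =>
      DD S Φ ℓ R F H (W n) (fun j => g j n) v x / 2) 𝔣 (𝓝 0) := by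
    have h2 := tendsto_finsetSum S fun v hv => (hx v hv).const_mul 2
    simpa using h2
  have h3 := h1.abs
  rw [abs_zero] at h3
  filter_upwards [(tendsto_order.mp h3).2 η hη] with N hN
  have e1 : (avr (Bx N) fun n => ∏ v, F v (Φ (g v n) x)) =
      (∑ v ∈ S, 2 * avr (Bx N) fun n => DD S Φ ℓ R F H (W n) (fun j => g j n) v x / 2) +
      avr (Bx N) fun n => ((∏ v ∈ S, F v (Φ (g v n) x)) * W n x -
        ∑ v ∈ S, DD S Φ ℓ R F H (W n) (fun j => g j n) v x) := by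
    rw [Pool.Agent.TH739.PA.avr_sub, avr_sum]
    have e2 : ∀ n, (∏ v ∈ S, F v (Φ (g v n) x)) * W n x = ∏ v, F v (Φ (g v n) x) := by
      intro n
      show _ * ∏ v ∈ Sᶜ, F v (Φ (g v n) x) = _
      rw [Finset.prod_mul_prod_compl S]
    simp only [e2]
    have e3 : ∀ v, 2 * (avr (Bx N) fun n => DD S Φ ℓ R F H (W n) (fun j => g j n) v x / 2) =
        avr (Bx N) fun n => DD S Φ ℓ R F H (W n) (fun j => g j n) v x := by
      intro v
      rw [← avr_mul]
      congr 1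
      funext n
      ring
    simp only [e3]
    ring
  rw [e1]
  refine (abs_add_le _ _).trans (add_le_add hN.le ?_)
  refine (avr_abs _ _).trans (avr_mono fun n _ => ?_)
  exact pointwise hS hR0 (fun w _ => hF1 w) (hW n).2 (fun j => g j n) x

/-- **Convergence to zero, real functions.** -/
theorem real_zero [𝔣.NeBot] [𝔣.IsCountablyGenerated]
    (hFl : Flow μ Φ) (hA : Filt mX mA Φ ℓ) (hY : Base mY mA Φ)
    {S : Finset J} (hS : S.Nonempty) {g : J → ι → G} (hsep : Sep 𝔣 Bx ℓ g S)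
    {F : J → X → ℝ} {r : G}
    (hF : ∀ v ∈ S, Measurable[cm mA Φ r] (F v)) (hF1 : ∀ v x, |F v x| ≤ 1)
    (hFY : ∀ v ∉ S, Measurable[mY] (F v))
    (hsm : ∀ ε : ℝ, 0 < ε → ∃ s : G, ℓ s ≤ ℓ r ∧ ∃ H E : J → X → ℝ,
      (∀ v ∈ S, CE μ (cm mA Φ s) (F v) (H v)) ∧ ∀ v ∈ S, 0 ≤ᵐ[μ] E v ∧ Integrable (E v) μ ∧
      ∫ x, E v x ∂μ ≤ ε ∧
      ∀ᵐ x ∂μ, Tendsto (fun N => avr (Bx N) fun n => |H v (Φ (g v n) x)|) 𝔣 (𝓝 (E v x))) :
    ∀ᵐ x ∂μ, Tendsto (fun N => avr (Bx N) fun n => ∏ v, F v (Φ (g v n) x)) 𝔣 (𝓝 0) := by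
  classical
  have hbad : ∀ δ : ℝ, 0 < δ → ∀ᵐ x ∂μ, ∀ᶠ N in 𝔣,
      |avr (Bx N) fun n => ∏ v, F v (Φ (g v n) x)| ≤ δ := by
    intro δ hδ
    rw [ae_iff, ← nonpos_iff_eq_zero]
    apply ENNReal.le_of_forall_pos_le_add
    intro ε hε _
    rw [zero_add]
    have hε' : (0 : ℝ) < ε := by exact_mod_cast hε
    obtain ⟨s, hsr, H, E, hH, hE⟩ := hsm (ε * (δ / 4) / (S.card + 1)) (by positivity)
    set R : ℝ := max (ℓ r - ℓ s) 1 with hRdef
    have hR : ℓ r - ℓ s ≤ R := le_max_left _ _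
    have hR0 : 0 < R := lt_of_lt_of_le one_pos (le_max_right _ _)
    let T : X → ℝ := fun x => ∑ v ∈ S, E v x
    have hT0 : 0 ≤ᵐ[μ] T := by
      have : ∀ᵐ x ∂μ, ∀ v ∈ S, 0 ≤ E v x :=
        (ae_ball_iff S.countable_toSet).2 fun v hv => (hE v hv).1
      filter_upwards [this] with x hx
      exact Finset.sum_nonneg hx
    have hTi : Integrable T μ := integrable_finsetSum _ fun v hv => (hE v hv).2.1
    have hTint : ∫ x, T x ∂μ ≤ ε * (δ / 4) := by
      have : ∫ x, T x ∂μ = ∑ v ∈ S, ∫ x, E v x ∂μ :=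
        integral_finsetSum _ fun v hv => (hE v hv).2.1
      rw [this]
      refine (Finset.sum_le_sum fun v hv => (hE v hv).2.2.1).trans ?_
      rw [Finset.sum_const, nsmul_eq_mul, mul_div_assoc', div_le_iff₀ (by positivity)]
      have : 0 ≤ ε * (δ / 4) := by positivity
      nlinarith
    have hmark := mul_meas_ge_le_integral_of_nonneg hT0 hTi (δ / 4)
    have hmark' : μ.real {x | δ / 4 ≤ T x} ≤ ε := by
      have h5 : δ / 4 * μ.real {x | δ / 4 ≤ T x} ≤ δ / 4 * ε := by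
        refine (hmark.trans hTint).trans ?_
        rw [mul_comm]
      exact le_of_mul_le_mul_left h5 (by positivity)
    have hmain := bound_ae (η := δ / 4) hFl hA hY hS hsep hsr hR hR0 hF hF1 hFY hH
      (by positivity)
    have hEall : ∀ᵐ x ∂μ, ∀ v ∈ S, Tendsto (fun N => avr (Bx N) fun n =>
        |H v (Φ (g v n) x)|) 𝔣 (𝓝 (E v x)) :=
      (ae_ball_iff S.countable_toSet).2 fun v hv => (hE v hv).2.2.2
    have hclose : Tendsto (fun N => ∑ v ∈ S, ∑ w ∈ S.erase v, avr (Bx N)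
        (fun n => if |ℓ (g v n) - ℓ (g w n)| < R then (1 : ℝ) else 0))
        𝔣 (𝓝 0) := by
      have h5 : Tendsto (fun N => ∑ v ∈ S, ∑ w ∈ S.erase v, avr (Bx N)
          (fun n => if |ℓ (g v n) - ℓ (g w n)| < R then (1 : ℝ) else 0))
          𝔣 (𝓝 (∑ v ∈ S, ∑ _w ∈ S.erase v, (0 : ℝ))) := by
        refine tendsto_finsetSum _ fun v hv => tendsto_finsetSum _ fun w hw => ?_
        exact hsep.cl v hv w (Finset.mem_of_mem_erase hw) (Finset.ne_of_mem_erase hw).symm R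
      rw [Finset.sum_eq_zero fun v _ => Finset.sum_const_zero] at h5
      exact h5
    have hsub : ∀ᵐ x ∂μ, x ∈ {x | ¬ ∀ᶠ N in 𝔣,
        |avr (Bx N) fun n => ∏ v, F v (Φ (g v n) x)| ≤ δ} → x ∈ {x | δ / 4 ≤ T x} := by
      filter_upwards [hmain, hEall] with x hx1 hx2 hx3
      show δ / 4 ≤ T x
      by_contra hcon
      rw [not_le] at hcon
      apply hx3
      have h6 : Tendsto (fun N => ∑ v ∈ S, avr (Bx N) fun n => |H v (Φ (g v n) x)|)
          𝔣 (𝓝 (T x)) := tendsto_finsetSum _ fun v hv => hx2 v hv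
      have h7 := (tendsto_order.mp h6).2 _ hcon
      have h8 := (tendsto_order.mp hclose).2 (δ / 4) (by positivity)
      filter_upwards [hx1, h7, h8] with N hN1 hN2 hN3
      refine hN1.trans ?_
      have e : (avr (Bx N) fun n => errb Φ ℓ R H S (fun v => g v n) x) =
          ∑ v ∈ S, (avr (Bx N) fun n => |H v (Φ (g v n) x)|) +
          ∑ v ∈ S, ∑ w ∈ S.erase v, avr (Bx N)
            (fun n => if |ℓ (g v n) - ℓ (g w n)| < R then (1 : ℝ) else 0) := by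
        unfold Pool.Agent.TH784.KE.errb
        rw [avr_add, avr_sum, avr_sum]
        congr 1
        refine Finset.sum_congr rfl fun v _ => ?_
        rw [avr_sum]
      rw [e]
      linarith
    have h10 : μ {x | ¬ ∀ᶠ N in 𝔣,
        |avr (Bx N) fun n => ∏ v, F v (Φ (g v n) x)| ≤ δ} ≤ μ {x | δ / 4 ≤ T x} :=
      measure_mono_ae hsub
    refine h10.trans ?_
    have h9 : μ {x | δ / 4 ≤ T x} = ENNReal.ofReal (μ.real {x | δ / 4 ≤ T x}) := by
      rw [measureReal_def, ENNReal.ofReal_toReal (measure_ne_top _ _)]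
    rw [h9]
    calc ENNReal.ofReal (μ.real {x | δ / 4 ≤ T x}) ≤ ENNReal.ofReal (ε : ℝ) :=
          ENNReal.ofReal_le_ofReal hmark'
      _ = ε := ENNReal.ofReal_coe_nnreal
  have hall := ae_all_iff.mpr fun i : ℕ => hbad (1 / ((i : ℝ) + 1)) (by positivity)
  filter_upwards [hall] with x hx
  rw [Metric.tendsto_nhds]
  intro ε hε
  obtain ⟨i, hi⟩ := exists_nat_one_div_lt hε
  filter_upwards [hx i] with N hN
  rw [Real.dist_eq, sub_zero]
  exact hN.trans_lt hi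

end Pool.Agent.Helper77.KS
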